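import Pool.Agent.Lib_helper1.VecMain
import Pool.Agent.Lib_helper1.C4.K00
import Pool.Agent.Lib_helper1.C4.K01
import Pool.Agent.Lib_helper1.C4.K02
import Pool.Agent.Lib_helper1.C4.K03
import Pool.Agent.Lib_helper1.C4.K04
import Pool.Agent.Lib_helper1.C4.K05
import Pool.Agent.Lib_helper1.C4.K06
import Pool.Agent.Lib_helper1.C4.K07
import Pool.Agent.Lib_helper1.C4.K08

set_option maxRecDepth 100000

namespace Pool.Agent.Lib_helper1.C4

open Pool.Agent.Lib_helper1.V Pool.Agent.Lib_helper2.Collatz

/-- the parameters of the certificate: `g = 9 / 10`, growth `10095 / 10000` per digit -/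
def K : Cert :=
  { k := 14, q := 16, u := 9, v := 10, A := 18820, B := 50110, C := 93509, D := 65536, P1 := 10095, P2 := 10000 }

theorem good1 : Good1 P where
  hs := by decide +kernel
  hj := by decide +kernel
  hL := by decide +kernel
  heb := by decide +kernel
  hcw := by decide +kernel
  hsh := by decide +kernel
  hA := by decide +kernel
  hC := by decide +kernel
  hB := by decide +kernel

theorem good2 : Good2 P where
  hxa := by decide +kernel
  hxb1 := by decide +kernel
  heb1 := by decide +kernel
  hfa := by decide +kernel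
  hef := by decide +kernel
  hKR1 := by decide +kernel
  hKR2 := by decide +kernel
  hsa := by decide +kernel
  hsb3 := by decide +kernel
  hF := by decide +kernel
  hF3 := by decide +kernel
  hKs := by decide +kernel

/-- first members of the blocks -/
def starts : List ℕ := [2, 326, 650, 245, 569, 164, 488, 83, 407]

theorem checked : Checked P Ed 547 27 8 starts where
  g1 := good1
  g2 := good2
  hinv := by decide +kernel
  hcov := by decide +kernel
  hblk := List.forall_mem_cons.2 ⟨t0, List.forall_mem_cons.2 ⟨t1, List.forall_mem_cons.2 ⟨t2, List.forall_mem_cons.2 ⟨t3, 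
    List.forall_mem_cons.2 ⟨t4, List.forall_mem_cons.2 ⟨t5, List.forall_mem_cons.2 ⟨t6, List.forall_mem_cons.2 ⟨t7, 
    List.forall_mem_cons.2 ⟨t8, List.forall_mem_nil _⟩⟩⟩⟩⟩⟩⟩⟩⟩

theorem certOK : CertOK K (cF P Ed (8 + 27)) (eF P Ed) :=
  checked.certOK (by decide +kernel) rfl rfl rfl rfl rfl (by decide +kernel) (by decide +kernel)
    (by decide +kernel) (by decide +kernel) (by decide +kernel) (by decide +kernel)
    (by decide +kernel) (by decide +kernel) (by decide +kernel) (by decide +kernel)

end Pool.Agent.Lib_helper1.C4
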