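import Pool.Agent.Lib_helper1.C4.D00
import Pool.Agent.Lib_helper1.C4.D01

set_option maxRecDepth 100000

namespace Pool.Agent.Lib_helper1.C4

open Pool.Agent.Lib_helper1.V

noncomputable section

/-- the table, by chunks -/
def Ei (i : Nat) : Nat := (cond (Nat.ble i 26) (cond (Nat.ble i 12) (cond (Nat.ble i 5) (cond (Nat.ble i 2) (cond (Nat.ble i 0) e0 (cond (Nat.ble i 1) e1 e2)) (cond (Nat.ble i 3) e3 (cond (Nat.ble i 4) e4 e5))) (cond (Nat.ble i 8) (cond (Nat.ble i 6) e6 (cond (Nat.ble i 7) e7 e8)) (cond (Nat.ble i 10) (cond (Nat.ble i 9) e9 e10) (cond (Nat.ble i 11) e11 e12)))) (cond (Nat.ble i 19) (cond (Nat.ble i 15) (cond (Nat.ble i 13) e13 (cond (Nat.ble i 14) e14 e15)) (cond (Nat.ble i 17) (cond (Nat.ble i 16) e16 e17) (cond (Nat.ble i 18) e18 e19))) (cond (Nat.ble i 22) (cond (Nat.ble i 20) e20 (cond (Nat.ble i 21) e21 e22)) (cond (Nat.ble i 24) (cond (Nat.ble i 23) e23 e24) (cond (Nat.ble i 25) e25 e26))))) (cond (Nat.ble i 39)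 (cond (Nat.ble i 32) (cond (Nat.ble i 29) (cond (Nat.ble i 27) e27 (cond (Nat.ble i 28) e28 e29)) (cond (Nat.ble i 30) e30 (cond (Nat.ble i 31) e31 e32))) (cond (Nat.ble i 35) (cond (Nat.ble i 33) e33 (cond (Nat.ble i 34) e34 e35)) (cond (Nat.ble i 37) (cond (Nat.ble i 36) e36 e37) (cond (Nat.ble i 38) e38 e39)))) (cond (Nat.ble i 46) (cond (Nat.ble i 42) (cond (Nat.ble i 40) e40 (cond (Nat.ble i 41) e41 e42)) (cond (Nat.ble i 44) (cond (Nat.ble i 43) e43 e44) (cond (Nat.ble i 45) e45 e46))) (cond (Nat.ble i 49) (cond (Nat.ble i 47) e47 (cond (Nat.ble i 48) e48 e49)) (cond (Nat.ble i 51) (cond (Nat.ble i 50) e50 e51) (cond (Nat.ble i 52) e52 e53))))))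

/-- the parameters -/
def P : Par :=
  { w := 40, s := 8, j := 6, L := 13, sh := 16, cb := 22, eb := 20,
    A := 18820, B := 50110, C := 93509, q := 16, xb := 26, f := 3, a := 13, sb := 20, F := 262144, a2 := 18, KR := 8774,
    Ks := [(6069, 2159), (7051, 23786), (7600, 78944), (7890, 143726), (8040, 194267), (8116, 225826), (8154, 243351), (8173, 252584), (8182, 257071), (8187, 259596), (8190, 261122), (8191, 261633)] }

/-- the table, by low digits -/
def Ed (b : Nat) : Nat := EdOf P (fun x => Ei (idx9 x)) b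

end

end Pool.Agent.Lib_helper1.C4
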